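import Pool.Agent.Q36.RD.Pat

set_option autoImplicit false

/-!
# Both parities of `a(n)` on the admissible progressions (MP_57720d_nt)

Let `a(n)` be the number of partitions of `n` without parts congruent to 3 modulo 6 and `M ≥ 1`. There is
`C` such that every linear combination `∑_{i < K} c_i a(n + i)` modulo 2, `n ≡ ρ (mod M)`, in which some
`c_i ≠ 0` belongs to a class `ρ + i` modulo `M` that is not contained in the classes 2, 3 modulo 4, takes
both values in every interval `[X, C (X + K)]`. For `K = 1`, `4 ∣ M`, `ρ ≡ 0` or `1 (mod 4)`: both parities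
of `a` occur in the progression `ρ + M n` in every interval `[X, C (X + 1)]`.

The existence of an odd value on every admissible progression is the theorem of
`Results/MP_24de68_nt/NoEvenProgression`; the patterns in short intervals follow from it by the theory of
the starting files `Y627/PT` (transcendence measure of `D` modulo 2).
-/

namespace Pool.Agent.Results.MP_57720d_nt.BothParities

/-- the number of partitions of `n` without parts congruent to 3 modulo 6 -/
def a (n : ℕ) : ℕ := Fintype.card {p : Nat.Partition n // ∀ i ∈ p.parts, i % 6 ≠ 3}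

theorem result (M : ℕ) (hM : 0 < M) :
    ∃ C : ℕ, ∀ (K : ℕ) (c : ℕ → ZMod 2) (ρ : ℕ),
      (∃ i < K, c i ≠ 0 ∧ ∃ N, N ≡ ρ + i [MOD M] ∧ N % 4 < 2) →
      ∀ (κ : ZMod 2) (X : ℕ), ∃ n, X ≤ n ∧ n ≤ C * (X + K) ∧ n ≡ ρ [MOD M] ∧
        ∑ i ∈ Finset.range K, c i * (a (n + i) : ZMod 2) = κ := by
  obtain ⟨C, hC⟩ := Pool.Agent.Q36.RD.pat_3 M hM
  refine ⟨C, fun K c ρ hc κ A => ?_⟩
  obtain ⟨n, h1, h2, h3, h4⟩ := hC K c ρ hc κ A
  refine ⟨n, h1, h2, h3, ?_⟩
  rw [← h4]
  refine Finset.sum_congr rfl fun i _ => ?_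
  rw [Pool.Agent.Q36.RD.GG3, PowerSeries.coeff_mk, a, Fintype.card_subtype]
  rfl

end Pool.Agent.Results.MP_57720d_nt.BothParities
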